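import Pool.Agent.H952R3.Ext.Stmts

set_option autoImplicit false

namespace Pool.Agent.H87R3.Rad

open Pool.Agent.Helper766.Rad Pool.Agent.Helper766.Rad.Plane.R3 Pool.Agent.H952R3.Ext

variable {ι : Type} [DecidableEq ι]

theorem circ_card (M : RankFn ι) {A C : Finset ι} (hs : Simple M A) (hA : M.r A = 3)
    (hC : C ∈ circs M A) : 3 ≤ C.card ∧ C.card ≤ 4 := by
  rw [Plane.R3.mem_circs] at hC
  obtain ⟨hCA, hC⟩ := hC
  have h1 := hC.r_add_one
  have h2 := M.mono C A hCA
  refine ⟨?_, by omega⟩
  by_contra hcon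
  push Not at hcon
  have h3 : C.card = 1 ∨ C.card = 2 := by
    have := Finset.card_pos.2 hC.nonempty
    omega
  rcases h3 with h3 | h3
  · obtain ⟨x, hx⟩ := Finset.card_eq_one.1 h3
    have := hs.1 x (hCA (by rw [hx]; simp))
    rw [← hx] at this
    omega
  · obtain ⟨x, y, hxy, hx⟩ := Finset.card_eq_two.1 h3
    have := hs.2 x (hCA (by rw [hx]; simp)) y (hCA (by rw [hx]; simp)) hxy
    rw [← hx] at this
    omega

section

variable (M : RankFn ι) (A L : Finset ι) (hs : Simple M A) (hA : M.r A = 3) (hLA : L ⊆ A)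
  (hL2 : M.r L = 2) (hcl : ∀ x ∈ A \ L, M.r (insert x L) = 3)

include hs hA hL2 in
theorem trace0 {C : Finset ι} (hC : C ∈ circs M A) (h : C \ L = ∅) :
    C ∈ L.powersetCard 3 := by
  have h1 := circ_card M hs hA hC
  rw [Plane.R3.mem_circs] at hC
  have h2 : C ⊆ L := Finset.sdiff_eq_empty_iff_subset.1 h
  have h3 := M.mono C L h2
  have h4 := hC.2.r_add_one
  rw [Finset.mem_powersetCard]
  exact ⟨h2, by omega⟩

include hL2 hcl in
theorem trace1 {C : Finset ι} (hC : C ∈ circs M A) (x : ι) : C \ L ≠ {x} := by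
  intro h
  rw [Plane.R3.mem_circs] at hC
  have hx : x ∈ C \ L := by rw [h]; simp
  rw [Finset.mem_sdiff] at hx
  have h1 := hC.2.cl hx.1
  have h2 : C.erase x ⊆ L := by
    intro z hz
    rw [Finset.mem_erase] at hz
    by_contra hzL
    have : z ∈ C \ L := Finset.mem_sdiff.2 ⟨hz.2, hzL⟩
    rw [h, Finset.mem_singleton] at this
    exact hz.1 this
  have h3 := cl_mono M h1 h2
  have h4 := hcl x (Finset.mem_sdiff.2 ⟨hC.1 hx.1, hx.2⟩)
  omega

/-- possible circuits with trace `{x, y}` -/
def P2 (L : Finset ι) (a x y : ι) : Finset (Finset ι) :=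
  insert {a, x, y} (((L.erase a).powersetCard 2).image (fun S => S ∪ {x, y}))

theorem P2_card {a : ι} (ha : a ∈ L) (x y : ι) :
    (P2 L a x y).card ≤ (L.card - 1).choose 2 + 1 := by
  unfold P2
  refine (Finset.card_insert_le _ _).trans ?_
  have h := Finset.card_image_le (s := (L.erase a).powersetCard 2) (f := fun S => S ∪ {x, y})
  rw [Finset.card_powersetCard, Finset.card_erase_of_mem ha] at h
  omega

include hs hA hLA hL2 hcl in
theorem trace2 {C : Finset ι} (hC : C ∈ circs M A) {a x y : ι} (hxy : x ≠ y) (ha : a ∈ L)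
    (h : C \ L = {x, y}) (hr : M.r {a, x, y} = 2) : C ∈ P2 L a x y := by
  have hcard := circ_card M hs hA hC
  have hC' := hC
  rw [Plane.R3.mem_circs] at hC
  have hx : x ∈ C \ L := by rw [h]; simp
  have hy : y ∈ C \ L := by rw [h]; simp
  have hx' := Finset.mem_sdiff.1 hx
  have hy' := Finset.mem_sdiff.1 hy
  have hax : a ≠ x := fun e => hx'.2 (e ▸ ha)
  have hay : a ≠ y := fun e => hy'.2 (e ▸ ha)
  have hsub : ({a, x, y} : Finset ι) ⊆ A := by
    intro z hz
    simp only [Finset.mem_insert, Finset.mem_singleton] at hz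
    rcases hz with rfl | rfl | rfl
    · exact hLA ha
    · exact hC.1 hx'.1
    · exact hC.1 hy'.1
  have hc3 : ({a, x, y} : Finset ι).card = 3 := Finset.card_eq_three.2 ⟨a, x, y, hax, hay, hxy, rfl⟩
  have hcirc := circ3 M hs hsub hc3 hr
  rw [Plane.R3.mem_circs] at hcirc
  unfold P2
  rw [Finset.mem_insert, Finset.mem_image]
  by_cases haC : a ∈ C
  · left
    refine (hC.2.eq_of_subset hcirc.2 ?_).symm
    intro z hz
    simp only [Finset.mem_insert, Finset.mem_singleton] at hz
    rcases hz with rfl | rfl | rfl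
    · exact haC
    · exact hx'.1
    · exact hy'.1
  · right
    have hdec : (C ∩ L) ∪ {x, y} = C := by
      rw [← h, Finset.union_comm]
      exact Finset.sdiff_union_inter C L
    have hcc : (C ∩ L).card + 2 = C.card := by
      have := Finset.card_sdiff_add_card_inter C L
      rw [h, Finset.card_pair hxy] at this
      omega
    refine ⟨C ∩ L, ?_, hdec⟩
    rw [Finset.mem_powersetCard]
    refine ⟨?_, ?_⟩
    · intro z hz
      rw [Finset.mem_inter] at hz
      exact Finset.mem_erase.2 ⟨fun e => haC (e ▸ hz.1), hz.2⟩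
    · by_contra hne
      have h1 : (C ∩ L).card = 1 := by omega
      obtain ⟨b, hb⟩ := Finset.card_eq_one.1 h1
      have hbC : b ∈ C ∩ L := by rw [hb]; simp
      rw [Finset.mem_inter] at hbC
      have hCe : C = {b, x, y} := by
        rw [← hdec, hb]
        rfl
      have hr2 : M.r {b, x, y} = 2 := by
        rw [← hCe]
        have := hC.2.r_add_one
        omega
      have hbad := bad_le M A L hs hLA hL2 hcl (p := x) (q := y)
        (Finset.mem_sdiff.2 ⟨hC.1 hx'.1, hx'.2⟩) (Finset.mem_sdiff.2 ⟨hC.1 hy'.1, hy'.2⟩) hxy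
      have hab : a ≠ b := fun e => haC (e ▸ hbC.1)
      have : 1 < (bad M L x y).card := by
        rw [Finset.one_lt_card]
        refine ⟨a, ?_, b, ?_, hab⟩
        · unfold bad
          exact Finset.mem_filter.2 ⟨ha, hr⟩
        · unfold bad
          exact Finset.mem_filter.2 ⟨hbC.2, hr2⟩
      omega

end

theorem u1 : TaskU1 := by
  intro ι _ M A n hs hn hH
  obtain ⟨L, p, q, a, hLn, hAe, hpL, hqL, hpq, ha, hL2, hr, hA⟩ := hH
  have hpA : p ∈ A := by rw [hAe]; simp
  have hqA : q ∈ A := by rw [hAe]; simp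
  have hLA : L ⊆ A := by
    rw [hAe]
    intro z hz
    simp [hz]
  have hap : a ≠ p := fun e => hpL (e ▸ ha)
  have haq : a ≠ q := fun e => hqL (e ▸ ha)
  have hdiff : A \ L = {p, q} := by
    rw [hAe]
    ext z
    simp only [Finset.mem_sdiff, Finset.mem_insert, Finset.mem_singleton]
    constructor
    · rintro ⟨h1 | h1 | h1, h2⟩
      · exact Or.inl h1
      · exact Or.inr h1
      · exact absurd h1 h2
    · rintro (rfl | rfl)
      · exact ⟨Or.inl rfl, hpL⟩
      · exact ⟨Or.inr (Or.inl rfl), hqL⟩
  have key : ∀ x ∈ A, x ∉ L → x ∈ ({a, p, q} : Finset ι) → a ≠ x → M.r (insert x L) = 3 := by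
    intro x hxA hxL hx hax
    have h1 := M.insert_le L x
    have h2 := M.mono' (Finset.subset_insert x L)
    by_contra hne
    have h3 : M.r (insert x L) ≤ 2 := by omega
    have hsub : insert x L ⊆ A := Finset.insert_subset hxA hLA
    have h4 := union_rk M hs (A := insert x L) (B := {a, p, q}) hsub h3 hr.le (by
      have : ({a, x} : Finset ι) ⊆ insert x L ∩ {a, p, q} := by
        intro z hz
        simp only [Finset.mem_insert, Finset.mem_singleton] at hz
        rcases hz with rfl | rfl
        · simp [ha]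
        · rw [Finset.mem_inter]
          exact ⟨Finset.mem_insert_self _ _, hx⟩
      have h5 := Finset.card_le_card this
      rw [Finset.card_pair hax] at h5
      exact h5)
    have h6 : M.r A ≤ M.r (insert x L ∪ {a, p, q}) := by
      apply M.mono
      rw [hAe]
      intro z hz
      simp only [Finset.mem_insert] at hz
      rcases hz with rfl | rfl | hz
      · simp
      · simp
      · simp [hz]
    omega
  have hcl : ∀ x ∈ A \ L, M.r (insert x L) = 3 := by
    intro x hx
    rw [hdiff] at hx
    simp only [Finset.mem_insert, Finset.mem_singleton] at hx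
    rcases hx with rfl | rfl
    · exact key x hpA hpL (by simp) hap
    · exact key x hqA hqL (by simp) haq
  have hsub : circs M A ⊆ L.powersetCard 3 ∪ P2 L a p q := by
    intro C hC
    rw [Finset.mem_union]
    have hCA := ((Plane.R3.mem_circs M A C).1 hC).1
    have hCL : C \ L ⊆ {p, q} := by
      rw [← hdiff]
      exact Finset.sdiff_subset_sdiff hCA (Finset.Subset.refl _)
    by_cases h1 : p ∈ C
    · by_cases h2 : q ∈ C
      · right
        apply trace2 M A L hs hA hLA hL2 hcl hC hpq ha _ hr
        apply Finset.Subset.antisymm hCL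
        intro z hz
        simp only [Finset.mem_insert, Finset.mem_singleton] at hz
        rcases hz with rfl | rfl
        · exact Finset.mem_sdiff.2 ⟨h1, hpL⟩
        · exact Finset.mem_sdiff.2 ⟨h2, hqL⟩
      · exfalso
        apply trace1 M A L hL2 hcl hC p
        apply Finset.Subset.antisymm
        · intro z hz
          have := hCL hz
          simp only [Finset.mem_insert, Finset.mem_singleton] at this
          rcases this with rfl | rfl
          · simp
          · exact absurd (Finset.mem_sdiff.1 hz).1 h2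
        · intro z hz
          rw [Finset.mem_singleton] at hz
          subst hz
          exact Finset.mem_sdiff.2 ⟨h1, hpL⟩
    · by_cases h2 : q ∈ C
      · exfalso
        apply trace1 M A L hL2 hcl hC q
        apply Finset.Subset.antisymm
        · intro z hz
          have := hCL hz
          simp only [Finset.mem_insert, Finset.mem_singleton] at this
          rcases this with rfl | rfl
          · exact absurd (Finset.mem_sdiff.1 hz).1 h1
          · simp
        · intro z hz
          rw [Finset.mem_singleton] at hz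
          subst hz
          exact Finset.mem_sdiff.2 ⟨h2, hqL⟩
      · left
        apply trace0 M A L hs hA hL2 hC
        rw [Finset.eq_empty_iff_forall_notMem]
        intro z hz
        have := hCL hz
        simp only [Finset.mem_insert, Finset.mem_singleton] at this
        rcases this with rfl | rfl
        · exact h1 (Finset.mem_sdiff.1 hz).1
        · exact h2 (Finset.mem_sdiff.1 hz).1
  have h1 := Finset.card_le_card hsub
  have h2 := Finset.card_union_le (L.powersetCard 3) (P2 L a p q)
  have h3 := P2_card L ha p q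
  rw [Finset.card_powersetCard] at h2
  have h4 : n - 2 = L.card := by omega
  have h5 : n - 3 = L.card - 1 := by omega
  rw [h4, h5]
  omega

section

variable (M : RankFn ι) (A L : Finset ι) (hs : Simple M A) (hA : M.r A = 3) (hLA : L ⊆ A)
  (hL2 : M.r L = 2) (hcl : ∀ x ∈ A \ L, M.r (insert x L) = 3)

/-- two lines through a common point and a further common point -/
theorem collin (hs : Simple M A) {a p q s : ι} (haA : a ∈ A) (hpA : p ∈ A) (hqA : q ∈ A)
    (hap : a ≠ p) (h1 : M.r {a, p, q} = 2) (h2 : M.r {a, p, s} = 2) : M.r {p, q, s} ≤ 2 := by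
  have h := union_rk M hs (A := {a, p, q}) (B := {a, p, s}) (by
    intro z hz
    simp only [Finset.mem_insert, Finset.mem_singleton] at hz
    rcases hz with rfl | rfl | rfl
    · exact haA
    · exact hpA
    · exact hqA) h1.le h2.le (by
    have : ({a, p} : Finset ι) ⊆ {a, p, q} ∩ {a, p, s} := by
      intro z hz
      simp only [Finset.mem_insert, Finset.mem_singleton] at hz
      rcases hz with rfl | rfl <;> simp
    have h5 := Finset.card_le_card this
    rw [Finset.card_pair hap] at h5
    exact h5)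
  refine (M.mono _ _ ?_).trans h
  intro z hz
  simp only [Finset.mem_insert, Finset.mem_singleton] at hz
  rcases hz with rfl | rfl | rfl <;> simp

end

theorem u3 : TaskU3 := by
  intro ι _ M A hs hS
  obtain ⟨hA7, hA, L, hLA, hL4, hL2, hcl, hpair⟩ := hS
  have hd3 : (A \ L).card = 3 := by
    rw [Finset.card_sdiff_of_subset hLA]
    omega
  obtain ⟨p, q, s, hpq, hps, hqs, hdiff⟩ := Finset.card_eq_three.1 hd3
  have hp : p ∈ A \ L := by rw [hdiff]; simp
  have hq : q ∈ A \ L := by rw [hdiff]; simp
  have hss : s ∈ A \ L := by rw [hdiff]; simp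
  obtain ⟨a₁, ha₁, hr₁⟩ := hpair p hp q hq hpq
  obtain ⟨a₂, ha₂, hr₂⟩ := hpair p hp s hss hps
  obtain ⟨a₃, ha₃, hr₃⟩ := hpair q hq s hss hqs
  have hp' := Finset.mem_sdiff.1 hp
  have hq' := Finset.mem_sdiff.1 hq
  have hs' := Finset.mem_sdiff.1 hss
  set T := (circs M A).filter (fun C => C \ L = {p, q, s}) with hT
  have hT1 : T.card ≤ 1 := by
    rw [Finset.card_le_one]
    intro C hC C' hC'
    rw [hT, Finset.mem_filter] at hC hC'
    have hc := circ_card M hs hA hC.1
    have hc' := circ_card M hs hA hC'.1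
    have m := (Plane.R3.mem_circs M A C).1 hC.1
    have m' := (Plane.R3.mem_circs M A C').1 hC'.1
    have hpqs : ({p, q, s} : Finset ι).card = 3 := Finset.card_eq_three.2 ⟨p, q, s, hpq, hps, hqs, rfl⟩
    have sub : ({p, q, s} : Finset ι) ⊆ C := by rw [← hC.2]; exact Finset.sdiff_subset
    have sub' : ({p, q, s} : Finset ι) ⊆ C' := by rw [← hC'.2]; exact Finset.sdiff_subset
    by_cases h3 : C.card = 3
    · have e : ({p, q, s} : Finset ι) = C := Finset.eq_of_subset_of_card_le sub (by omega)
      rw [e] at sub'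
      exact m'.2.eq_of_subset m.2 sub'
    by_cases h3' : C'.card = 3
    · have e : ({p, q, s} : Finset ι) = C' := Finset.eq_of_subset_of_card_le sub' (by omega)
      rw [e] at sub
      exact (m.2.eq_of_subset m'.2 sub).symm
    have h4 : C.card = 4 := by omega
    have h4' : C'.card = 4 := by omega
    -- the rank of `{p,q,s}` is 3
    have hrk : M.r {p, q, s} = 3 := by
      have := m.2.indep_of_ssubset (D := {p, q, s}) (Finset.ssubset_iff_subset_ne.2 ⟨sub, by
        intro e
        rw [← e, hpqs] at h4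
        omega⟩)
      rw [this, hpqs]
    have n12 : a₁ ≠ a₂ := by
      rintro rfl
      have := collin M A hs (a := a₁) (p := p) (q := q) (s := s) (hLA ha₁) hp'.1 hq'.1
        (fun e => hp'.2 (e ▸ ha₁)) hr₁ hr₂
      omega
    have n13 : a₁ ≠ a₃ := by
      rintro rfl
      have h1 : M.r {a₁, q, p} = 2 := by rw [Finset.pair_comm q p]; exact hr₁
      have := collin M A hs (a := a₁) (p := q) (q := p) (s := s) (hLA ha₁) hq'.1 hp'.1
        (fun e => hq'.2 (e ▸ ha₁)) h1 hr₃
      rw [Finset.insert_comm] at this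
      omega
    have n23 : a₂ ≠ a₃ := by
      rintro rfl
      have h1 : M.r {a₂, s, p} = 2 := by rw [Finset.pair_comm s p]; exact hr₂
      have h2 : M.r {a₂, s, q} = 2 := by rw [Finset.pair_comm s q]; exact hr₃
      have := collin M A hs (a := a₂) (p := s) (q := p) (s := q) (hLA ha₂) hs'.1 hp'.1
        (fun e => hs'.2 (e ▸ ha₂)) h1 h2
      rw [Finset.insert_comm, Finset.pair_comm s q] at this
      omega
    have main : ∀ D : Finset ι, IsCirc M D → D.card = 4 → D \ L = {p, q, s} →
        ∃ b, b ∈ L \ {a₁, a₂, a₃} ∧ D = insert b {p, q, s} := by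
      intro D hD hD4 hDL
      have h1 := Finset.card_sdiff_add_card_inter D L
      rw [hDL, hpqs] at h1
      have h2 : (D ∩ L).card = 1 := by omega
      obtain ⟨b, hb⟩ := Finset.card_eq_one.1 h2
      have hbD : b ∈ D ∩ L := by rw [hb]; simp
      rw [Finset.mem_inter] at hbD
      have hDe : D = insert b {p, q, s} := by
        rw [← Finset.sdiff_union_inter D L, hDL, hb, Finset.union_comm]
        rfl
      have hnb : ∀ a x y : ι, x ∉ L → y ∉ L → x ≠ y → x ∈ D → y ∈ D → M.r {a, x, y} = 2 → b ≠ a := by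
        rintro a x y hx hy hxy hxD hyD hr rfl
        have hc3 : ({b, x, y} : Finset ι).card = 3 := Finset.card_eq_three.2
          ⟨b, x, y, fun e => hx (e ▸ hbD.2), fun e => hy (e ▸ hbD.2), hxy, rfl⟩
        have hsub : ({b, x, y} : Finset ι) ⊆ D := by
          intro z hz
          simp only [Finset.mem_insert, Finset.mem_singleton] at hz
          rcases hz with rfl | rfl | rfl
          · exact hbD.1
          · exact hxD
          · exact hyD
        have := hD.indep_of_ssubset (D := {b, x, y}) (Finset.ssubset_iff_subset_ne.2 ⟨hsub, by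
          intro e
          rw [← e] at hD4
          omega⟩)
        omega
      have hpD : p ∈ D := by rw [hDe]; simp
      have hqD : q ∈ D := by rw [hDe]; simp
      have hsD : s ∈ D := by rw [hDe]; simp
      refine ⟨b, ?_, hDe⟩
      rw [Finset.mem_sdiff]
      refine ⟨hbD.2, ?_⟩
      simp only [Finset.mem_insert, Finset.mem_singleton, not_or]
      exact ⟨hnb a₁ p q hp'.2 hq'.2 hpq hpD hqD hr₁, hnb a₂ p s hp'.2 hs'.2 hps hpD hsD hr₂,
        hnb a₃ q s hq'.2 hs'.2 hqs hqD hsD hr₃⟩
    obtain ⟨b, hb, hCe⟩ := main C m.2 h4 hC.2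
    obtain ⟨b', hb', hCe'⟩ := main C' m'.2 h4' hC'.2
    have hc1 : (L \ {a₁, a₂, a₃}).card ≤ 1 := by
      have hsub3 : ({a₁, a₂, a₃} : Finset ι) ⊆ L := by
        intro z hz
        simp only [Finset.mem_insert, Finset.mem_singleton] at hz
        rcases hz with rfl | rfl | rfl <;> assumption
      rw [Finset.card_sdiff_of_subset hsub3, hL4,
        Finset.card_eq_three.2 ⟨a₁, a₂, a₃, n12, n13, n23, rfl⟩]
    have := Finset.card_le_one.1 hc1 b hb b' hb'
    rw [hCe, hCe', this]
  have hsub : circs M A ⊆ (L.powersetCard 3 ∪ T) ∪ (P2 L a₁ p q ∪ (P2 L a₂ p s ∪ P2 L a₃ q s)) := by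
    intro C hC
    simp only [Finset.mem_union]
    have hCA := ((Plane.R3.mem_circs M A C).1 hC).1
    have hCL : C \ L ⊆ {p, q, s} := by
      rw [← hdiff]
      exact Finset.sdiff_subset_sdiff hCA (Finset.Subset.refl _)
    -- membership in the trace
    have tr : ∀ z, z ∈ C \ L ↔ (z = p ∧ p ∈ C) ∨ (z = q ∧ q ∈ C) ∨ (z = s ∧ s ∈ C) := by
      intro z
      constructor
      · intro hz
        have h1 := hCL hz
        simp only [Finset.mem_insert, Finset.mem_singleton] at h1
        have h2 := (Finset.mem_sdiff.1 hz).1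
        rcases h1 with rfl | rfl | rfl
        · exact Or.inl ⟨rfl, h2⟩
        · exact Or.inr (Or.inl ⟨rfl, h2⟩)
        · exact Or.inr (Or.inr ⟨rfl, h2⟩)
      · rintro (⟨rfl, h⟩ | ⟨rfl, h⟩ | ⟨rfl, h⟩)
        · exact Finset.mem_sdiff.2 ⟨h, hp'.2⟩
        · exact Finset.mem_sdiff.2 ⟨h, hq'.2⟩
        · exact Finset.mem_sdiff.2 ⟨h, hs'.2⟩
    by_cases h1 : p ∈ C <;> by_cases h2 : q ∈ C <;> by_cases h3 : s ∈ C
    · left; right
      rw [hT, Finset.mem_filter]
      refine ⟨hC, ?_⟩
      ext z
      rw [tr]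
      simp [h1, h2, h3]
    · right; left
      apply trace2 M A L hs hA hLA hL2 hcl hC hpq ha₁ _ hr₁
      ext z
      rw [tr]
      simp [h1, h2, h3]
    · right; right; left
      apply trace2 M A L hs hA hLA hL2 hcl hC hps ha₂ _ hr₂
      ext z
      rw [tr]
      simp [h1, h2, h3]
    · exfalso
      apply trace1 M A L hL2 hcl hC p
      ext z
      rw [tr]
      simp [h1, h2, h3]
    · right; right; right
      apply trace2 M A L hs hA hLA hL2 hcl hC hqs ha₃ _ hr₃
      ext z
      rw [tr]
      simp [h1, h2, h3]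
    · exfalso
      apply trace1 M A L hL2 hcl hC q
      ext z
      rw [tr]
      simp [h1, h2, h3]
    · exfalso
      apply trace1 M A L hL2 hcl hC s
      ext z
      rw [tr]
      simp [h1, h2, h3]
    · left; left
      apply trace0 M A L hs hA hL2 hC
      ext z
      rw [tr]
      simp [h1, h2, h3]
  have c0 := Finset.card_le_card hsub
  have c1 := Finset.card_union_le (L.powersetCard 3 ∪ T)
    (P2 L a₁ p q ∪ (P2 L a₂ p s ∪ P2 L a₃ q s))
  have c2 := Finset.card_union_le (L.powersetCard 3) T
  have c3 := Finset.card_union_le (P2 L a₁ p q) (P2 L a₂ p s ∪ P2 L a₃ q s)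
  have c4 := Finset.card_union_le (P2 L a₂ p s) (P2 L a₃ q s)
  have d1 := P2_card L ha₁ p q
  have d2 := P2_card L ha₂ p s
  have d3 := P2_card L ha₃ q s
  rw [Finset.card_powersetCard, hL4] at c2
  rw [hL4] at d1 d2 d3
  have e1 : Nat.choose 4 3 = 4 := by decide
  have e2 : Nat.choose (4 - 1) 2 = 3 := by decide
  rw [e1] at c2
  rw [e2] at d1 d2 d3
  omega

end Pool.Agent.H87R3.Rad
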